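import Pool.Agent.W912.ND.Defs

/-!
# Circuits of small depth ask few rounds of long questions
-/

set_option autoImplicit false

namespace Pool.Agent.W317.NDRQ

open Pool.Agent.NPC Pool.Agent.H620R2.Gauge Pool.Agent.H622R2.Ckt H568R2 Pool.Agent.H676
open Pool.Agent.W900.CH Filter Pool.Agent.W912.ND

theorem gateDeps_append (gs : List Gate) (g : Gate) :
    gateDeps (gs ++ [g]) = gateDeps gs ++ [gdep (gateDeps gs) g] := by
  simp [gateDeps, List.foldl_append]

theorem gateVals_append (A : Oracle) (x : List Bool) (gs : List Gate) (g : Gate) :
    gateVals A x (gs ++ [g]) = gateVals A x gs ++ [g.val A x (gateVals A x gs)] := by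
  simp [gateVals, List.foldl_append]

theorem gateDeps_length (gs : List Gate) : (gateDeps gs).length = gs.length := by
  induction gs using List.reverseRecOn with
  | nil => rfl
  | append_singleton gs g ih =>
    rw [gateDeps_append, List.length_append, List.length_append, ih]; rfl

theorem gateVals_length (A : Oracle) (x : List Bool) (gs : List Gate) :
    (gateVals A x gs).length = gs.length := by
  induction gs using List.reverseRecOn with
  | nil => rfl
  | append_singleton gs g ih =>
    rw [gateVals_append, List.length_append, List.length_append, ih]; rfl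

theorem orc_eq {N : ℕ} {b b' : Fin N → Bool} {q : List Bool}
    (h : ∀ hq : idx q < N, b ⟨idx q, hq⟩ = b' ⟨idx q, hq⟩) : orc N b q = orc N b' q := by
  unfold orc
  by_cases hq : idx q < N
  · rw [dif_pos hq, dif_pos hq]; exact h hq
  · rw [dif_neg hq, dif_neg hq]

theorem wdep_le_foldr (d : List ℕ) (l : List Wire) (r : Wire) (hr : r ∈ l) :
    wdep d r ≤ (l.map (wdep d)).foldr max 0 := by
  induction l with
  | nil => simp at hr
  | cons r' l ih =>
    simp only [List.map_cons, List.foldr_cons]
    rcases List.mem_cons.1 hr with h | h
    · subst h; exact le_max_left _ _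
    · exact (ih h).trans (le_max_right _ _)

theorem getD_snoc {α : Type} (l : List α) (x d : α) (i : ℕ) :
    (l ++ [x]).getD i d = if i < l.length then l.getD i d else if i = l.length then x else d := by
  rcases lt_trichotomy i l.length with hi | hi | hi
  · rw [if_pos hi, List.getD_append _ _ _ _ hi]
  · rw [if_neg (by omega), if_pos hi, List.getD_append_right _ _ _ _ (by omega), hi]
    simp
  · rw [if_neg (by omega), if_neg (by omega), List.getD_append_right _ _ _ _ (by omega)]
    apply List.getD_eq_default
    simp only [List.length_singleton]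
    omega

theorem gate_const {w j : ℕ} {z V V' : List Bool} {D : List ℕ} {A A' : Oracle}
    (H : ∀ W : Wire, wdep D W / w ≤ j → W.val z V = W.val z V') (g : Gate)
    (hg : gdep D g / w ≤ j)
    (hask : ∀ l, g = .ask l → A (l.map (Wire.val z V)) = A' (l.map (Wire.val z V))) :
    g.val A z V = g.val A' z V' := by
  cases g with
  | and r s =>
    simp only [Gate.val]
    simp only [gdep] at hg
    rw [H r ((Nat.div_le_div_right (by have := le_max_left (wdep D r) (wdep D s); omega)).trans hg),
      H s ((Nat.div_le_div_right (by have := le_max_right (wdep D r) (wdep D s); omega)).trans hg)]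
  | or r s =>
    simp only [Gate.val]
    simp only [gdep] at hg
    rw [H r ((Nat.div_le_div_right (by have := le_max_left (wdep D r) (wdep D s); omega)).trans hg),
      H s ((Nat.div_le_div_right (by have := le_max_right (wdep D r) (wdep D s); omega)).trans hg)]
  | not r =>
    simp only [Gate.val]
    simp only [gdep] at hg
    rw [H r ((Nat.div_le_div_right (by omega)).trans hg)]
  | ask l =>
    simp only [Gate.val]
    simp only [gdep] at hg
    have e : l.map (Wire.val z V) = l.map (Wire.val z V') := by
      apply List.map_congr_left
      intro r hr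
      have := wdep_le_foldr D l r hr
      exact H r ((Nat.div_le_div_right (by omega)).trans hg)
    rw [hask l rfl, e]

/-- the long gates of level at most `j` ask known positions -/
def Cond {N : ℕ} (lam w : ℕ) (Sh : Finset (Fin N)) (π : Fin N → Bool) (gs : List Gate)
    (z : List Bool) (j : ℕ) (P : Finset (Fin N)) (ρ : Fin N → Bool) : Prop :=
  ∀ (gs' : List Gate) (l : List Wire), (gs' ++ [Gate.ask l]) <+: gs → lam + 1 ≤ l.length →
    gdep (gateDeps gs') (.ask l) / w ≤ j → ∀ (a : Fin N → Bool),
    ∀ h : idx (l.map (Wire.val z (gateVals (orc N (ow Sh π (ow P ρ a))) z gs'))) < N,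
      (⟨_, h⟩ : Fin N) ∈ P

theorem const_wires {N lam w : ℕ} {Sh P : Finset (Fin N)} {π ρ : Fin N → Bool}
    (hSh : ∀ i : Fin N, (str i.val).length ≤ lam → i ∈ Sh) (gs : List Gate) (z : List Bool) (j : ℕ)
    (hC : Cond lam w Sh π gs z j P ρ) (a a' : Fin N → Bool) (gs' : List Gate) :
    gs' <+: gs → ∀ W : Wire, wdep (gateDeps gs') W / w ≤ j →
      W.val z (gateVals (orc N (ow Sh π (ow P ρ a))) z gs') =
        W.val z (gateVals (orc N (ow Sh π (ow P ρ a'))) z gs') := by
  induction gs' using List.reverseRecOn with
  | nil => intro _ W _; cases W <;> rfl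
  | append_singleton gs' g ih =>
    intro hgs'
    have hpre : gs' <+: gs := (List.prefix_append gs' [g]).trans hgs'
    have ih := ih hpre
    intro W hW
    cases W with
    | inp i => rfl
    | cst b => rfl
    | gate i =>
      rw [gateVals_append, gateVals_append]
      rw [gateDeps_append] at hW
      simp only [Wire.val, wdep] at hW ⊢
      rw [getD_snoc, gateDeps_length] at hW
      rw [getD_snoc, getD_snoc, gateVals_length, gateVals_length]
      by_cases h1 : i < gs'.length
      · rw [if_pos h1] at hW
        rw [if_pos h1, if_pos h1]
        exact ih (.gate i) hW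
      · rw [if_neg h1] at hW
        rw [if_neg h1, if_neg h1]
        by_cases h2 : i = gs'.length
        · rw [if_pos h2] at hW
          rw [if_pos h2, if_pos h2]
          apply gate_const ih g hW
          intro l hl
          subst hl
          apply orc_eq
          intro hq
          by_cases h3 : (⟨_, hq⟩ : Fin N) ∈ Sh
          · simp only [ow, if_pos h3]
          · have h4 : lam + 1 ≤ l.length := by
              by_contra h5
              apply h3
              apply hSh
              rw [str_idx, List.length_map]
              omega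
            have h5 := hC gs' l hgs' h4 hW a hq
            simp only [ow, if_neg h3, if_pos h5]
        · rw [if_neg h2, if_neg h2]

theorem long_wires {w D' lam : ℕ} {D : List ℕ} {l : List Wire} (hw : 1 ≤ w)
    (hlam : w ≤ Nat.clog 2 (lam + 1)) (hl : lam + 1 ≤ l.length)
    (h : gdep D (.ask l) / w ≤ D' + 1) (r : Wire) (hr : r ∈ l) : wdep D r / w ≤ D' := by
  simp only [gdep] at h
  have h1 := wdep_le_foldr D l r hr
  have h2 : w ≤ max 1 (Nat.clog 2 l.length) :=
    (hlam.trans (Nat.clog_mono_right 2 hl)).trans (le_max_right _ _)
  have h3 : wdep D r + w ≤ (l.map (wdep D)).foldr max 0 + max 1 (Nat.clog 2 l.length) :=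
    Nat.add_le_add h1 h2
  have h4 := (Nat.div_le_div_right (c := w) h3).trans h
  rw [Nat.add_div_right _ hw] at h4
  omega

theorem ow_ow {N : ℕ} (P Q : Finset (Fin N)) (ρ π' a : Fin N → Bool) :
    ow P ρ (ow Q π' a) = ow (P ∪ Q) (ow P ρ π') a := by
  funext i
  simp only [ow, Finset.mem_union]
  by_cases h1 : i ∈ P <;> by_cases h2 : i ∈ Q <;> simp [h1, h2]

theorem main {N lam w s : ℕ} {Sh : Finset (Fin N)} {π : Fin N → Bool} {C : Circuit}
    {z : List Bool} (hSh : ∀ i : Fin N, (str i.val).length ≤ lam → i ∈ Sh) (hw : 1 ≤ w)
    (hlam : w ≤ Nat.clog 2 (lam + 1)) (hs : C.gates.length ≤ s) (m : ℕ) :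
    ∀ (j : ℕ) (P : Finset (Fin N)) (ρ : Fin N → Bool), j + m = depth C / w →
      Cond lam w Sh π C.gates z j P ρ →
      RQ s m (fun a : Fin N → Bool => C.eval (orc N (ow Sh π (ow P ρ a))) z) := by
  classical
  induction m with
  | zero =>
    intro j P ρ hj hC
    refine ⟨C.eval (orc N (ow Sh π (ow P ρ (fun _ => false)))) z, fun a => ?_⟩
    exact const_wires hSh C.gates z j hC a (fun _ => false) C.gates (List.prefix_refl _) C.out
      (by rw [add_zero] at hj; exact hj.ge)
  | succ m ih =>
    intro j P ρ hj hC
    set F : ℕ → ℕ := fun k => match C.gates[k]? with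
      | some (.ask l) => idx (l.map (Wire.val z
          (gateVals (orc N (ow Sh π (ow P ρ (fun _ => false)))) z (C.gates.take k))))
      | _ => 0 with hF
    set Q : Finset (Fin N) := Finset.univ.filter
      (fun i => ∃ k < C.gates.length, i.val = F k) with hQ
    refine ⟨Q, ?_, fun π' => ?_⟩
    · have h1 : Q.image (fun i => i.val) ⊆ (Finset.range C.gates.length).image F := by
        intro x hx
        rw [Finset.mem_image] at hx ⊢
        obtain ⟨i, hi, rfl⟩ := hx
        rw [hQ, Finset.mem_filter] at hi
        obtain ⟨_, k, hk, hik⟩ := hi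
        exact ⟨k, Finset.mem_range.2 hk, hik.symm⟩
      have h2 : (Q.image (fun i => i.val)).card = Q.card :=
        Finset.card_image_of_injective _ Fin.val_injective
      rw [← h2]
      refine (Finset.card_le_card h1).trans ?_
      refine Finset.card_image_le.trans ?_
      rw [Finset.card_range]
      exact hs
    · have key := ih (j + 1) (P ∪ Q) (ow P ρ π') (by omega) ?_
      · have e : (fun a : Fin N → Bool => C.eval (orc N (ow Sh π (ow P ρ (ow Q π' a)))) z) =
            (fun a : Fin N → Bool => C.eval (orc N (ow Sh π (ow (P ∪ Q) (ow P ρ π') a))) z) := by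
          funext a
          rw [ow_ow P Q]
        change RQ s m (fun a : Fin N → Bool => C.eval (orc N (ow Sh π (ow P ρ (ow Q π' a)))) z)
        rw [e]
        exact key
      · intro gs' l hp hl hd a
        rw [← ow_ow]
        intro h
        have hpre : gs' <+: C.gates := (List.prefix_append gs' [_]).trans hp
        have e : l.map (Wire.val z
            (gateVals (orc N (ow Sh π (ow P ρ (ow Q π' a)))) z gs')) =
            l.map (Wire.val z (gateVals (orc N (ow Sh π (ow P ρ (fun _ => false)))) z gs')) := by
          apply List.map_congr_left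
          intro r hr
          exact const_wires hSh C.gates z j hC _ _ gs' hpre r (long_wires hw hlam hl hd r hr)
        apply Finset.mem_union_right
        refine Finset.mem_filter.2 ⟨Finset.mem_univ _, gs'.length, ?_, ?_⟩
        · have := hp.length_le
          rw [List.length_append, List.length_singleton] at this
          omega
        · have e1 : C.gates[gs'.length]? = some (.ask l) := by
            obtain ⟨t, ht⟩ := hp
            rw [← ht]
            simp
          have e2 : C.gates.take gs'.length = gs' := by
            obtain ⟨t, ht⟩ := hpre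
            rw [← ht]
            simp
          simp only [hF, e1, e2]
          rw [e]

theorem rq : S_RQ := by
  intro N lam w s Sh π C z hSh hw hlam hs
  have h0 := main (s := s) (π := π) (C := C) (z := z) hSh hw hlam ?_ (depth C / w) 0 ∅
    (fun _ => false) (by omega) ?_
  · have e : (fun a : Fin N → Bool => C.eval (orc N (ow Sh π (ow ∅ (fun _ => false) a))) z) =
        (fun a : Fin N → Bool => C.eval (orc N (ow Sh π a)) z) := by
      funext a
      have : ow ∅ (fun _ => false) a = a := by
        funext i
        simp [ow]
      rw [this]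
    rw [← e]
    exact h0
  · refine le_trans ?_ hs
    unfold Circuit.size
    have : (C.gates.map Gate.size).length ≤ (C.gates.map Gate.size).sum := by
      apply List.length_le_sum_of_one_le
      intro i hi
      rw [List.mem_map] at hi
      obtain ⟨g, _, rfl⟩ := hi
      cases g <;> simp [Gate.size]
    rwa [List.length_map] at this
  · intro gs' l hp hl hd a h
    exfalso
    simp only [gdep] at hd
    have h2 : w ≤ max 1 (Nat.clog 2 l.length) :=
      (hlam.trans (Nat.clog_mono_right 2 hl)).trans (le_max_right _ _)
    have h3 := Nat.div_pos (h2.trans (Nat.le_add_left _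
      ((l.map (wdep (gateDeps gs'))).foldr max 0))) hw
    omega

end Pool.Agent.W317.NDRQ
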